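import Pool.Agent.Q77.LU.StmU
import Pool.Agent.Q58.LU.Zero

/-!
# Project LU, uniform version, job NEARU: in the tree gauge configurations with small `tau` are close
to a centre transformation of the trivial one
-/

set_option autoImplicit false
set_option linter.unusedSectionVars false

namespace Pool.Agent.Q58.LUU

open MeasureTheory Matrix Set Filter Topology Pool.Agent.Q77.LU
open scoped ContDiff Matrix.Norms.Frobenius

noncomputable section

variable {N n D l : ℕ} {G : Subgroup (UU N)}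

lemma norm_of_fro2 {A B : Mt N} (h : fro2 A = fro2 B) : ‖A‖ = ‖B‖ := by
  rw [Pool.Agent.Q77.LU.fro2_eq, Pool.Agent.Q77.LU.fro2_eq] at h
  exact (sq_eq_sq₀ (norm_nonneg _) (norm_nonneg _)).1 h

lemma norm_left (g : G) (M : Mt N) : ‖mt g * M‖ = ‖M‖ := by
  apply norm_of_fro2
  unfold fro2
  rw [conjTranspose_mul, Matrix.mul_assoc, ← Matrix.mul_assoc (mt g)ᴴ (mt g) M,
    Pool.Agent.Q77.LU.mt_unit', Matrix.one_mul]

lemma norm_right (g : G) (M : Mt N) : ‖M * mt g‖ = ‖M‖ := by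
  apply norm_of_fro2
  unfold fro2
  rw [conjTranspose_mul, trace_mul_comm, Matrix.mul_assoc, ← Matrix.mul_assoc (mt g) (mt g)ᴴ Mᴴ,
    Pool.Agent.Q77.LU.mt_unit, Matrix.one_mul, trace_mul_comm]

lemma nd_left (a g h : G) : ‖mt (a * g) - mt (a * h)‖ = ‖mt g - mt h‖ := by
  rw [Pool.Agent.Q77.LU.mt_mul, Pool.Agent.Q77.LU.mt_mul, ← Matrix.mul_sub, norm_left]

lemma nd_right (a g h : G) : ‖mt (g * a) - mt (h * a)‖ = ‖mt g - mt h‖ := by
  rw [Pool.Agent.Q77.LU.mt_mul, Pool.Agent.Q77.LU.mt_mul, ← Matrix.sub_mul, norm_right]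

lemma nd_tri (a b c : G) : ‖mt a - mt c‖ ≤ ‖mt a - mt b‖ + ‖mt b - mt c‖ := norm_sub_le_norm_sub_add_norm_sub _ _ _

lemma nd_symm (a b : G) : ‖mt a - mt b‖ = ‖mt b - mt a‖ := norm_sub_rev _ _

lemma le_triple {X Y Z : Type} [Fintype X] [Fintype Y] [Fintype Z] (F : X → Y → Z → ℝ)
    (h0 : ∀ x i j, 0 ≤ F x i j) (x : X) (i : Y) (j : Z) :
    F x i j ≤ ∑ x, ∑ i, ∑ j, F x i j := by
  have h1 : F x i j ≤ ∑ j, F x i j :=
    Finset.single_le_sum (f := F x i) (fun j _ => h0 x i j) (Finset.mem_univ j)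
  have h2 : ∑ j, F x i j ≤ ∑ i, ∑ j, F x i j :=
    Finset.single_le_sum (f := fun i => ∑ j, F x i j)
      (fun i _ => Finset.sum_nonneg fun j _ => h0 x i j) (Finset.mem_univ i)
  have h3 : ∑ i, ∑ j, F x i j ≤ ∑ x, ∑ i, ∑ j, F x i j :=
    Finset.single_le_sum (f := fun x => ∑ i, ∑ j, F x i j)
      (fun x _ => Finset.sum_nonneg fun i _ => Finset.sum_nonneg fun j _ => h0 x i j)
      (Finset.mem_univ x)
  exact h1.trans (h2.trans h3)

/-- one plaquette -/
lemma plaq_le [NeZero l] (U : Link D l → G) (x : Fin D → ZMod l) {i j : Fin D} (hij : i < j) :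
    ‖mt (plaq U x i j) - mt (1 : G)‖ ≤ Real.sqrt (2 * magnetic U) := by
  apply Real.le_sqrt_of_sq_le
  have h1 : ‖mt (plaq U x i j) - mt (1 : G)‖ ^ 2 = fro2 (1 - mt (plaq U x i j)) := by
    rw [Pool.Agent.Q77.LU.fro2_eq, Pool.Agent.Q77.LU.mt_one, norm_sub_rev]
  have h2 := Pool.Agent.Q77.LU.tr_one_sub (plaq U x i j)
  have h0 : ∀ (x : Fin D → ZMod l) (i j : Fin D),
      0 ≤ (if i < j then (trace (1 - mt (plaq U x i j))).re else 0) := by
    intro x i j
    split_ifs
    · exact Pool.Agent.Q77.LU.tr_one_sub_nonneg _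
    · exact le_rfl
  have h3 : (trace (1 - mt (plaq U x i j))).re ≤ magnetic U := by
    have h4 := le_triple (fun (x : Fin D → ZMod l) (i j : Fin D) =>
      if i < j then (trace (1 - mt (plaq U x i j))).re else 0) h0 x i j
    simp only [if_pos hij] at h4
    exact h4
  rw [h1]
  linarith

/-- almost flatness -/
lemma flat_le [NeZero l] (U : Link D l → G) (x : Fin D → ZMod l) (i j : Fin D) :
    ‖mt (U (x, i) * U (x + unitv i, j)) - mt (U (x, j) * U (x + unitv j, i))‖ ≤
      Real.sqrt (2 * magnetic U) := by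
  have key : ∀ i j : Fin D, i < j →
      ‖mt (U (x, i) * U (x + unitv i, j)) - mt (U (x, j) * U (x + unitv j, i))‖ ≤
        Real.sqrt (2 * magnetic U) := by
    intro i j hij
    have h1 := plaq_le U x hij
    have h2 := nd_right (U (x, j) * U (x + unitv j, i)) (plaq U x i j) 1
    have h3 : plaq U x i j * (U (x, j) * U (x + unitv j, i)) = U (x, i) * U (x + unitv i, j) := by
      unfold plaq
      group
    rw [h3, one_mul] at h2
    rw [h2]
    exact h1
  rcases lt_trichotomy i j with h | h | h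
  · exact key i j h
  · subst h
    rw [sub_self, norm_zero]
    exact Real.sqrt_nonneg _
  · rw [nd_symm]
    exact key j i h

/-- moving a link against a direction with almost trivial links -/
lemma slide_le [NeZero l] {U : Link D l → G} {α ε : ℝ} (hε : Real.sqrt (2 * magnetic U) ≤ ε)
    {i j : Fin D} (hj : ∀ x : Fin D → ZMod l, x j ≠ -1 → ‖mt (U (x, j)) - mt (1 : G)‖ ≤ α)
    (hij : j ≠ i) {x : Fin D → ZMod l} (hx : x j ≠ 0) :
    ‖mt (U (x, i)) - mt (U (x - unitv j, i))‖ ≤ ε + 2 * α := by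
  have h1 := flat_le U (x - unitv j) i j
  have e1 : (x - (unitv j : Fin D → ZMod l)) j ≠ -1 := by
    simp only [Pi.sub_apply, unitv, Pi.single_eq_same]
    intro h2
    apply hx
    linear_combination h2
  have e2 : (x - (unitv j : Fin D → ZMod l) + (unitv i : Fin D → ZMod l)) j ≠ -1 := by
    simp only [Pi.add_apply, unitv, Pi.single_eq_of_ne hij, add_zero]
    exact e1
  rw [sub_add_cancel] at h1
  have h2 := hj _ e1
  have h3 := hj _ e2
  have h4 : ‖mt (U (x - unitv j, j) * U (x, i)) - mt (U (x, i))‖ ≤ α := by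
    have := nd_right (U (x, i)) (U (x - unitv j, j)) 1
    rw [one_mul] at this
    rw [this]
    exact h2
  have h5 : ‖mt (U (x - unitv j, i) * U (x - unitv j + unitv i, j)) - mt (U (x - unitv j, i))‖ ≤
      α := by
    have := nd_left (U (x - unitv j, i)) (U (x - unitv j + unitv i, j)) 1
    rw [mul_one] at this
    rw [this]
    exact h3
  have h6 := nd_tri (U (x, i)) (U (x - unitv j, j) * U (x, i)) (U (x - unitv j, i))
  have h7 := nd_tri (U (x - unitv j, j) * U (x, i))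
    (U (x - unitv j, i) * U (x - unitv j + unitv i, j)) (U (x - unitv j, i))
  have h8 := nd_symm (U (x, i)) (U (x - unitv j, j) * U (x, i))
  have h9 := nd_symm (U (x - unitv j, j) * U (x, i))
    (U (x - unitv j, i) * U (x - unitv j + unitv i, j))
  linarith

/-- the size of the coordinates -/
lemma sum_val_le [NeZero l] (x : Fin D → ZMod l) : ∑ k, (x k).val ≤ D * l := by
  calc ∑ k, (x k).val ≤ ∑ _k : Fin D, l := Finset.sum_le_sum fun k _ => (ZMod.val_lt (x k)).le
    _ = D * l := by simp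

/-- the noncrossing links are almost trivial -/
lemma noncross_le [NeZero l] {U : Link D l → G} {ε : ℝ} (hε0 : 0 ≤ ε)
    (hε : Real.sqrt (2 * magnetic U) ≤ ε) (ht : ∀ e, inT e → U e = 1) (i : Fin D) :
    ∀ x : Fin D → ZMod l, x i ≠ -1 →
      ‖mt (U (x, i)) - mt (1 : G)‖ ≤ (3 * (D * l : ℝ)) ^ (D - (i : ℕ)) * ε := by
  have hD : 1 ≤ D := i.pos
  have hl : 1 ≤ l := Nat.one_le_iff_ne_zero.2 (NeZero.ne l)
  have hDl : (1 : ℝ) ≤ (D * l : ℝ) := by
    have : 1 ≤ D * l := Nat.mul_pos hD hl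
    exact_mod_cast this
  induction i using WellFoundedGT.induction with
  | ind i ih =>
    have hstep : ∀ x : Fin D → ZMod l, x i ≠ -1 → ‖mt (U (x, i)) - mt (1 : G)‖ ≤
        ((∑ k, (x k).val : ℕ) : ℝ) * (3 * ((3 * (D * l : ℝ)) ^ (D - (i : ℕ) - 1) * ε)) := by
      intro x
      induction hs : ∑ k, (x k).val using Nat.strong_induction_on generalizing x with
      | _ s ihs =>
        intro hx
        by_cases hc : ∀ j, i < j → x j = 0
        · rw [ht (x, i) ⟨hc, hx⟩, sub_self, norm_zero]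
          positivity
        · push Not at hc
          obtain ⟨j, hj, hxj⟩ := hc
          have hpow : (3 * (D * l : ℝ)) ^ (D - (j : ℕ)) * ε ≤
              (3 * (D * l : ℝ)) ^ (D - (i : ℕ) - 1) * ε := by
            apply mul_le_mul_of_nonneg_right _ hε0
            apply pow_le_pow_right₀ (by linarith)
            have h1 : (i : ℕ) < j := hj
            omega
          have h2 := slide_le hε (fun y hy => (ih j hj y hy).trans hpow) (ne_of_gt hj) hxj
          have h3 := ihs _ (hs ▸ Pool.Agent.Q58.LU.sum_sub_lt hxj) (x - unitv j) rfl (by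
            simp only [Pi.sub_apply, unitv, Pi.single_eq_of_ne hj.ne, sub_zero]
            exact hx)
          have h4 := nd_tri (U (x, i)) (U (x - unitv j, i)) 1
          have h5 : ε ≤ (3 * (D * l : ℝ)) ^ (D - (i : ℕ) - 1) * ε :=
            le_mul_of_one_le_left hε0 (one_le_pow₀ (by linarith))
          have h6 : ((∑ k, ((x - (unitv j : Fin D → ZMod l)) k).val : ℕ) : ℝ) + 1 ≤ s := by
            have := Pool.Agent.Q58.LU.sum_sub_lt hxj
            rw [hs] at this
            exact_mod_cast this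
          set T := (3 * (D * l : ℝ)) ^ (D - (i : ℕ) - 1) * ε with hT
          have hT0 : 0 ≤ T := by positivity
          nlinarith
    intro x hx
    refine (hstep x hx).trans ?_
    have h1 : ((∑ k, (x k).val : ℕ) : ℝ) ≤ D * l := by exact_mod_cast sum_val_le x
    have h2 : (3 * (D * l : ℝ)) ^ (D - (i : ℕ)) =
        3 * (D * l : ℝ) * (3 * (D * l : ℝ)) ^ (D - (i : ℕ) - 1) := by
      have h3 : D - (i : ℕ) = (D - (i : ℕ) - 1) + 1 := by
        have := i.2
        omega
      rw [h3, pow_succ, ← h3]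
      ring_nf
    rw [h2]
    have h4 : 0 ≤ 3 * ((3 * (D * l : ℝ)) ^ (D - (i : ℕ) - 1) * ε) := by positivity
    calc ((∑ k, (x k).val : ℕ) : ℝ) * (3 * ((3 * (D * l : ℝ)) ^ (D - (i : ℕ) - 1) * ε)) ≤
        (D * l) * (3 * ((3 * (D * l : ℝ)) ^ (D - (i : ℕ) - 1) * ε)) :=
          mul_le_mul_of_nonneg_right h1 h4
      _ = _ := by ring

/-- the crossing links almost depend on the direction only -/
lemma cross_le [NeZero l] {U : Link D l → G} {ε β : ℝ} (hε0 : 0 ≤ ε) (hβ : 0 ≤ β)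
    (hε : Real.sqrt (2 * magnetic U) ≤ ε)
    (hn : ∀ (j : Fin D) (x : Fin D → ZMod l), x j ≠ -1 → ‖mt (U (x, j)) - mt (1 : G)‖ ≤ β)
    (i : Fin D) : ∀ x : Fin D → ZMod l, x i = -1 →
      ‖mt (U (x, i)) - mt (U (-unitv i, i))‖ ≤ ((∑ k, (x k).val : ℕ) : ℝ) * (ε + 2 * β) := by
  intro x
  induction hs : ∑ k, (x k).val using Nat.strong_induction_on generalizing x with
  | _ s ihs =>
    intro hx
    by_cases hc : ∀ j, j ≠ i → x j = 0
    · have : x = -unitv i := by
        funext j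
        by_cases hj : j = i
        · subst hj
          simp [unitv, hx]
        · simp [unitv, Pi.single_eq_of_ne hj, hc j hj]
      rw [this, sub_self, norm_zero]
      positivity
    · push Not at hc
      obtain ⟨j, hj, hxj⟩ := hc
      have h2 := slide_le hε (hn j) hj hxj
      have h3 := ihs _ (hs ▸ Pool.Agent.Q58.LU.sum_sub_lt hxj) (x - unitv j) rfl (by
        simp only [Pi.sub_apply, unitv, Pi.single_eq_of_ne hj.symm, sub_zero]
        exact hx)
      have h4 := nd_tri (U (x, i)) (U (x - unitv j, i)) (U (-unitv i, i))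
      have h6 : ((∑ k, ((x - (unitv j : Fin D → ZMod l)) k).val : ℕ) : ℝ) + 1 ≤ s := by
        have := Pool.Agent.Q58.LU.sum_sub_lt hxj
        rw [hs] at this
        exact_mod_cast this
      have h7 : 0 ≤ ε + 2 * β := by positivity
      nlinarith

/-- products of almost trivial elements -/
lemma prod_le {β : ℝ} : ∀ (m : ℕ) (f : Fin m → G), (∀ i, ‖mt (f i) - mt (1 : G)‖ ≤ β) →
    ‖mt (List.ofFn f).prod - mt (1 : G)‖ ≤ m * β := by
  intro m
  induction m with
  | zero =>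
    intro f _
    simp
  | succ m ih =>
    intro f hf
    rw [List.ofFn_succ, List.prod_cons]
    have h1 := ih (fun i => f i.succ) fun i => hf i.succ
    have h2 := nd_tri (f 0 * (List.ofFn fun i => f i.succ).prod) (f 0) 1
    have h3 := nd_left (f 0) (List.ofFn fun i => f i.succ).prod 1
    rw [mul_one] at h3
    rw [h3] at h2
    have h4 := hf 0
    push_cast
    linarith

lemma wind_le {l : ℕ} [NeZero l] {U : Link D l → G} {β : ℝ} (hβ : 0 ≤ β)
    (hn : ∀ (j : Fin D) (x : Fin D → ZMod l), x j ≠ -1 → ‖mt (U (x, j)) - mt (1 : G)‖ ≤ β)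
    (i : Fin D) : ‖mt (wind U 0 i) - mt (U (-unitv i, i))‖ ≤ l * β := by
  obtain ⟨m, hm⟩ : ∃ m, l = m + 1 := ⟨l - 1, by have := NeZero.ne l; omega⟩
  subst hm
  simp only [wind]
  rw [List.ofFn_succ_last, List.prod_append]
  have e1 := prod_le m (fun s : Fin m => U (0 + ((s.castSucc : Fin (m + 1)) : ℕ) • unitv i, i))
    (fun s => by
      apply hn
      rw [Fin.val_castSucc, zero_add, Pi.smul_apply]
      simp only [unitv, Pi.single_eq_same, nsmul_eq_mul, mul_one]
      intro h1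
      have h2 : (((s : ℕ) + 1 : ℕ) : ZMod (m + 1)) = 0 := by
        push_cast
        rw [h1]
        ring
      rw [ZMod.natCast_eq_zero_iff] at h2
      have h3 := Nat.le_of_dvd (Nat.succ_pos _) h2
      have := s.2
      omega)
  have e2 : (0 : Fin D → ZMod (m + 1)) + ((Fin.last m : Fin (m + 1)) : ℕ) • unitv i = -unitv i := by
    funext j
    simp only [Fin.val_last, Pi.add_apply, Pi.zero_apply, zero_add, Pi.smul_apply, Pi.neg_apply,
      unitv]
    by_cases hj : j = i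
    · subst hj
      rw [Pi.single_eq_same, nsmul_eq_mul, mul_one]
      have : ((m + 1 : ℕ) : ZMod (m + 1)) = 0 := ZMod.natCast_self _
      push_cast at this
      exact eq_neg_of_add_eq_zero_left this
    · rw [Pi.single_eq_of_ne hj]
      simp
  rw [e2]
  simp only [List.prod_cons, List.prod_nil, mul_one]
  have e3 := nd_right (U (-unitv i, i))
    (List.ofFn fun s : Fin m => U (0 + ((s.castSucc : Fin (m + 1)) : ℕ) • unitv i, i)).prod 1
  rw [one_mul] at e3
  rw [e3]
  refine e1.trans ?_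
  push_cast
  nlinarith

theorem t_NEARU (h1 : S_ADCU) (h2 : S_TGA) (h3 : S_HC) : S_NEARU := by
  intro N n D G hG hconn B hz
  obtain ⟨C, hC, hadc⟩ := h1 N n G hG hconn B hz
  set K : ℝ := 2 * D + 4 * D * (3 * D) ^ D + 2 * (3 * D) ^ D + Real.sqrt C with hK
  have hK0 : 0 ≤ K := by positivity
  refine ⟨D + 1, 1 + K, by linarith, ?_⟩
  intro l _ U
  obtain ⟨hc, -, -, -, hgi, -, hmn, htn, -⟩ := h3 N n D l G hG B
  obtain ⟨ht, -, -, -⟩ := h2 N D l G U
  have htau : tau B (tg U) = tau B U := hgi (pth U) U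
  set V := tg U with hV
  set E := Real.sqrt (tau B U) with hE
  have hE0 : 0 ≤ E := Real.sqrt_nonneg _
  have hl1 : (1 : ℝ) ≤ l := by exact_mod_cast Nat.one_le_iff_ne_zero.2 (NeZero.ne l)
  have hwsum : ∀ x i, ∑ a : Fin n, fro2 (mt (wind V x i) * B.X a * (mt (wind V x i))ᴴ - B.X a) ≤
      ∑ x : Fin D → ZMod l, ∑ i : Fin D, ∑ a : Fin n,
      fro2 (mt (wind V x i) * B.X a * (mt (wind V x i))ᴴ - B.X a) := by
    intro x i
    refine le_trans (Finset.single_le_sum (f := fun i => ∑ a : Fin n,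
      fro2 (mt (wind V x i) * B.X a * (mt (wind V x i))ᴴ - B.X a))
      (fun i _ => Finset.sum_nonneg fun a _ => Pool.Agent.Q77.LU.fro2_nonneg _)
      (Finset.mem_univ i)) ?_
    exact Finset.single_le_sum (f := fun x => ∑ i : Fin D, ∑ a : Fin n,
      fro2 (mt (wind V x i) * B.X a * (mt (wind V x i))ᴴ - B.X a))
      (fun x _ => Finset.sum_nonneg fun i _ => Finset.sum_nonneg fun a _ =>
        Pool.Agent.Q77.LU.fro2_nonneg _) (Finset.mem_univ x)
  have hmag : magnetic V ≤ tau B U := by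
    rw [← htau]
    unfold tau
    have : 0 ≤ ∑ x : Fin D → ZMod l, ∑ i : Fin D, ∑ a : Fin n,
        fro2 (mt (wind V x i) * B.X a * (mt (wind V x i))ᴴ - B.X a) :=
      Finset.sum_nonneg fun x _ => Finset.sum_nonneg fun i _ => Finset.sum_nonneg fun a _ =>
        Pool.Agent.Q77.LU.fro2_nonneg _
    linarith
  have hwt : ∀ i, ∑ a : Fin n, fro2 (mt (wind V 0 i) * B.X a * (mt (wind V 0 i))ᴴ - B.X a) ≤
      tau B U := by
    intro i
    refine (hwsum 0 i).trans ?_
    rw [← htau]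
    unfold tau
    have := hmn V
    linarith
  have hε : Real.sqrt (2 * magnetic V) ≤ 2 * E := by
    rw [Real.sqrt_le_left (by positivity), mul_pow, hE, Real.sq_sqrt (htn U)]
    linarith [htn U]
  choose z hzc hzd using fun i : Fin D => hadc (wind V 0 i)
  refine ⟨z, hzc, ?_⟩
  rcases Nat.eq_zero_or_pos D with hD0 | hD
  · subst hD0
    intro e
    exact e.2.elim0
  have hD1 : (1 : ℝ) ≤ D := by exact_mod_cast hD
  -- the noncrossing links
  set β : ℝ := (3 * (D * l : ℝ)) ^ D * (2 * E) with hβ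
  have hβ0 : 0 ≤ β := by positivity
  have hDl : (1 : ℝ) ≤ 3 * (D * l : ℝ) := by nlinarith
  have hn : ∀ (j : Fin D) (x : Fin D → ZMod l), x j ≠ -1 →
      ‖mt (V (x, j)) - mt (1 : G)‖ ≤ β := by
    intro j x hx
    refine (noncross_le (by positivity) hε ht j x hx).trans ?_
    apply mul_le_mul_of_nonneg_right _ (by positivity)
    exact pow_le_pow_right₀ hDl (Nat.sub_le _ _)
  have hzE : ∀ i, ‖mt (wind V 0 i) - mt (z i)‖ ≤ Real.sqrt C * E := by
    intro i
    have h5 := (hzd i).trans (mul_le_mul_of_nonneg_left (hwt i) hC.le)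
    rw [hE, ← Real.sqrt_mul hC.le]
    exact Real.le_sqrt_of_sq_le h5
  have hβl : β = 2 * (3 * (D : ℝ)) ^ D * (l : ℝ) ^ D * E := by
    rw [hβ, ← mul_assoc 3 (D : ℝ) (l : ℝ), mul_pow]
    ring
  have hlp : (1 : ℝ) ≤ (l : ℝ) ^ (D + 1) := one_le_pow₀ hl1
  have hlp1 : (l : ℝ) ^ D ≤ (l : ℝ) ^ (D + 1) := pow_le_pow_right₀ hl1 (Nat.le_succ D)
  have hlp2 : (l : ℝ) ≤ (l : ℝ) ^ (D + 1) := by
    calc (l : ℝ) = (l : ℝ) ^ 1 := (pow_one _).symm
      _ ≤ (l : ℝ) ^ (D + 1) := pow_le_pow_right₀ hl1 (by omega)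
  have hlE : 0 ≤ (l : ℝ) ^ (D + 1) * E := by positivity
  have hP0 : (0 : ℝ) ≤ (3 * (D : ℝ)) ^ D := by positivity
  intro e
  obtain ⟨x, i⟩ := e
  by_cases hx : x i = -1
  · have e1 : centre z (fun _ => (1 : G)) (x, i) = z i := by
      unfold centre
      rw [if_pos hx, mul_one]
    rw [e1]
    have h5 := cross_le (by positivity) hβ0 hε hn i x hx
    have h6 := wind_le hβ0 hn i
    have h7 := nd_tri (V (x, i)) (V (-unitv i, i)) (z i)
    have h8 := nd_tri (V (-unitv i, i)) (wind V 0 i) (z i)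
    have h8' := nd_symm (V (-unitv i, i)) (wind V 0 i)
    have h9 : ((∑ k, (x k).val : ℕ) : ℝ) ≤ D * l := by exact_mod_cast sum_val_le x
    have h10 : ((∑ k, (x k).val : ℕ) : ℝ) * (2 * E + 2 * β) ≤ D * l * (2 * E + 2 * β) :=
      mul_le_mul_of_nonneg_right h9 (by positivity)
    have h11 := hzE i
    have h12 : ‖mt (V (x, i)) - mt (z i)‖ ≤ D * l * (2 * E + 2 * β) + l * β + Real.sqrt C * E := by
      linarith
    refine h12.trans ?_
    have h13 : D * l * (2 * E + 2 * β) + l * β + Real.sqrt C * E =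
        2 * D * (l * E) + (4 * D * (3 * (D : ℝ)) ^ D + 2 * (3 * (D : ℝ)) ^ D) *
          ((l : ℝ) ^ (D + 1) * E) + Real.sqrt C * E := by
      rw [hβl, pow_succ]
      ring
    rw [h13]
    have h14 : (l : ℝ) * E ≤ (l : ℝ) ^ (D + 1) * E := mul_le_mul_of_nonneg_right hlp2 hE0
    have h15 : E ≤ (l : ℝ) ^ (D + 1) * E := le_mul_of_one_le_left hE0 hlp
    have h16 : (1 + K) * (l : ℝ) ^ (D + 1) * E = (l : ℝ) ^ (D + 1) * E +
        2 * D * ((l : ℝ) ^ (D + 1) * E) + (4 * D * (3 * (D : ℝ)) ^ D + 2 * (3 * (D : ℝ)) ^ D) *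
          ((l : ℝ) ^ (D + 1) * E) + Real.sqrt C * ((l : ℝ) ^ (D + 1) * E) := by
      rw [hK]
      ring
    rw [h16]
    have h17 : 2 * D * (l * E) ≤ 2 * D * ((l : ℝ) ^ (D + 1) * E) :=
      mul_le_mul_of_nonneg_left h14 (by positivity)
    have h18 : Real.sqrt C * E ≤ Real.sqrt C * ((l : ℝ) ^ (D + 1) * E) :=
      mul_le_mul_of_nonneg_left h15 (Real.sqrt_nonneg _)
    linarith
  · have e1 : centre z (fun _ => (1 : G)) (x, i) = 1 := by
      unfold centre
      rw [if_neg hx]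
    rw [e1]
    refine (hn i x hx).trans ?_
    rw [hβl]
    have h14 : (l : ℝ) ^ D * E ≤ (l : ℝ) ^ (D + 1) * E := mul_le_mul_of_nonneg_right hlp1 hE0
    have h16 : (1 + K) * (l : ℝ) ^ (D + 1) * E = (1 + 2 * D + 4 * D * (3 * (D : ℝ)) ^ D +
        Real.sqrt C) * ((l : ℝ) ^ (D + 1) * E) + 2 * (3 * (D : ℝ)) ^ D *
          ((l : ℝ) ^ (D + 1) * E) := by
      rw [hK]
      ring
    rw [h16]
    have h17 : 2 * (3 * (D : ℝ)) ^ D * ((l : ℝ) ^ D * E) ≤
        2 * (3 * (D : ℝ)) ^ D * ((l : ℝ) ^ (D + 1) * E) :=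
      mul_le_mul_of_nonneg_left h14 (by positivity)
    have h18 : 0 ≤ (1 + 2 * D + 4 * D * (3 * (D : ℝ)) ^ D + Real.sqrt C) *
        ((l : ℝ) ^ (D + 1) * E) := by positivity
    calc 2 * (3 * (D : ℝ)) ^ D * (l : ℝ) ^ D * E = 2 * (3 * (D : ℝ)) ^ D * ((l : ℝ) ^ D * E) := by
          ring
      _ ≤ _ := by linarith

end

end Pool.Agent.Q58.LUU
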