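import Pool.Agent.Q58.LUU.Nearu
import Pool.Agent.Q129.LU.Hessf

/-!
# Project LU, uniform version, job WEI: approximate Hodge theory for all configurations
-/

set_option autoImplicit false
set_option linter.unusedSectionVars false
set_option linter.unusedVariables false

namespace Pool.Agent.Q58.LUU

open MeasureTheory Matrix Set Filter Topology Pool.Agent.Q77.LU
open scoped ContDiff Matrix.Norms.Frobenius
open Pool.Agent.Q129.LU (Am Am_conj Am_mul Am_inv Am_orth dl der_link cov_apply ip_sum io io_sum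
  io_comm gram_alg cov_mul_t)

noncomputable section

variable {N n D l : ℕ} {G : Subgroup (UU N)}

/-! ### the scalar product -/

theorem re_tr_comm (A M : Mt N) : (trace (Mᴴ * A)).re = (trace (Aᴴ * M)).re := by
  have h : (Aᴴ * M)ᴴ = Mᴴ * A := by rw [conjTranspose_mul, conjTranspose_conjTranspose]
  rw [← h, trace_conjTranspose]
  simp

theorem norm_sq' (M : Mt N) : (trace (Mᴴ * M)).re = ‖M‖ ^ 2 := Pool.Agent.Q77.LU.fro2_eq M

theorem norm_add_sq' (A M : Mt N) :
    ‖A + M‖ ^ 2 = ‖A‖ ^ 2 + 2 * (trace (Aᴴ * M)).re + ‖M‖ ^ 2 := by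
  rw [← norm_sq', ← norm_sq', ← norm_sq', conjTranspose_add, add_mul, mul_add, mul_add, trace_add,
    trace_add, trace_add, Complex.add_re, Complex.add_re, Complex.add_re, re_tr_comm A M]
  ring

/-- Cauchy-Schwarz -/
theorem re_tr_le (A M : Mt N) : |(trace (Aᴴ * M)).re| ≤ ‖A‖ * ‖M‖ := by
  rw [abs_le]
  constructor
  · have h1 := norm_add_sq' A (-M)
    have h2 := norm_add_le A (-M)
    rw [norm_neg] at h1 h2
    have h3 : (trace (Aᴴ * -M)).re = -(trace (Aᴴ * M)).re := by
      rw [mul_neg, trace_neg, Complex.neg_re]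
    rw [h3] at h1
    nlinarith [norm_nonneg (A + -M), norm_nonneg A, norm_nonneg M]
  · have h1 := norm_add_sq' A M
    have h2 := norm_add_le A M
    nlinarith [norm_nonneg (A + M), norm_nonneg A, norm_nonneg M]

theorem norm_X (B : LieBasis G n) (a : Fin n) : ‖B.X a‖ = 1 := by
  have h1 := norm_sq' (B.X a)
  rw [B.orth a a, if_pos rfl] at h1
  exact (sq_eq_sq₀ (norm_nonneg _) zero_le_one).1 (by rw [← h1, one_pow])

/-- the change of a scalar product -/
theorem ip_diff {A A' M M' : Mt N} {s t δ : ℝ} (h1 : ‖A'‖ ≤ s) (h2 : ‖M‖ ≤ t)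
    (h3 : ‖A - A'‖ ≤ s * δ) (h4 : ‖M - M'‖ ≤ t * δ) (hs : 0 ≤ s) (ht : 0 ≤ t) (hδ : 0 ≤ δ) :
    |(trace (Aᴴ * M)).re - (trace (A'ᴴ * M')).re| ≤ 2 * s * t * δ := by
  have e1 : (trace (Aᴴ * M)).re - (trace (A'ᴴ * M')).re =
      (trace ((A - A')ᴴ * M)).re + (trace (A'ᴴ * (M - M'))).re := by
    rw [conjTranspose_sub, sub_mul, mul_sub, trace_sub, trace_sub, Complex.sub_re, Complex.sub_re]
    ring
  rw [e1]
  have h5 := re_tr_le (A - A') M
  have h6 := re_tr_le A' (M - M')
  have h7 : ‖A - A'‖ * ‖M‖ ≤ (s * δ) * t := mul_le_mul h3 h2 (norm_nonneg _) (by positivity)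
  have h8 : ‖A'‖ * ‖M - M'‖ ≤ s * (t * δ) := mul_le_mul h1 h4 (norm_nonneg _) hs
  calc |(trace ((A - A')ᴴ * M)).re + (trace (A'ᴴ * (M - M'))).re| ≤
      |(trace ((A - A')ᴴ * M)).re| + |(trace (A'ᴴ * (M - M'))).re| := abs_add_le _ _
    _ ≤ (s * δ) * t + s * (t * δ) := by linarith
    _ = 2 * s * t * δ := by ring

/-! ### the derivative of a plaquette -/

/-- the derivative of a plaquette without the factor of the plaquette -/
def dfl (B : LieBasis G n) (U : Link D l → G) (x : Fin D → ZMod l) (i j : Fin D)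
    (p : Link D l × Fin n) : Mt N :=
  dl (x, i) p.1 • B.X p.2
    + dl (x + unitv i, j) p.1 • (mt (U (x, i)) * B.X p.2 * (mt (U (x, i)))ᴴ)
    - dl (x + unitv j, i) p.1 • (mt (U (x, j)) * B.X p.2 * (mt (U (x, j)))ᴴ)
    - dl (x, j) p.1 • B.X p.2

/-- number of the occurrences of a link in a plaquette -/
def sgm (x : Fin D → ZMod l) (i j : Fin D) (e : Link D l) : ℝ :=
  dl (x, i) e + dl (x + unitv i, j) e + dl (x + unitv j, i) e + dl (x, j) e

theorem dl_nonneg (e e' : Link D l) : 0 ≤ dl e e' := by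
  unfold dl
  split_ifs <;> norm_num

theorem dl_le (e e' : Link D l) : dl e e' ≤ 1 := by
  unfold dl
  split_ifs <;> norm_num

theorem sgm_nonneg (x : Fin D → ZMod l) (i j : Fin D) (e : Link D l) : 0 ≤ sgm x i j e := by
  unfold sgm
  have h1 := dl_nonneg (x, i) e
  have h2 := dl_nonneg (x + unitv i, j) e
  have h3 := dl_nonneg (x + unitv j, i) e
  have h4 := dl_nonneg (x, j) e
  linarith

theorem sgm_le (x : Fin D → ZMod l) (i j : Fin D) (e : Link D l) : sgm x i j e ≤ 4 := by
  unfold sgm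
  have h1 := dl_le (x, i) e
  have h2 := dl_le (x + unitv i, j) e
  have h3 := dl_le (x + unitv j, i) e
  have h4 := dl_le (x, j) e
  linarith

theorem norm_ct (g : G) (M : Mt N) : ‖M * (mt g)ᴴ‖ = ‖M‖ := by
  rw [← Pool.Agent.Q77.LU.mt_inv, norm_right]

theorem norm_ct_left (g : G) (M : Mt N) : ‖(mt g)ᴴ * M‖ = ‖M‖ := by
  rw [← Pool.Agent.Q77.LU.mt_inv, norm_left]

theorem norm_conj (g : G) (M : Mt N) : ‖mt g * M * (mt g)ᴴ‖ = ‖M‖ := by
  rw [norm_ct, norm_left]

theorem comb4 {c1 c2 c3 c4 δ : ℝ} (h1 : 0 ≤ c1) (h2 : 0 ≤ c2) (h3 : 0 ≤ c3) (h4 : 0 ≤ c4)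
    {A1 A2 A3 A4 : Mt N} (k1 : ‖A1‖ ≤ δ) (k2 : ‖A2‖ ≤ δ) (k3 : ‖A3‖ ≤ δ) (k4 : ‖A4‖ ≤ δ) :
    ‖c1 • A1 + c2 • A2 - c3 • A3 - c4 • A4‖ ≤ (c1 + c2 + c3 + c4) * δ := by
  have e1 : ‖c1 • A1‖ ≤ c1 * δ := by
    rw [norm_smul, Real.norm_eq_abs, abs_of_nonneg h1]
    exact mul_le_mul_of_nonneg_left k1 h1
  have e2 : ‖c2 • A2‖ ≤ c2 * δ := by
    rw [norm_smul, Real.norm_eq_abs, abs_of_nonneg h2]
    exact mul_le_mul_of_nonneg_left k2 h2
  have e3 : ‖c3 • A3‖ ≤ c3 * δ := by
    rw [norm_smul, Real.norm_eq_abs, abs_of_nonneg h3]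
    exact mul_le_mul_of_nonneg_left k3 h3
  have e4 : ‖c4 • A4‖ ≤ c4 * δ := by
    rw [norm_smul, Real.norm_eq_abs, abs_of_nonneg h4]
    exact mul_le_mul_of_nonneg_left k4 h4
  have f1 := norm_sub_le (c1 • A1 + c2 • A2 - c3 • A3) (c4 • A4)
  have f2 := norm_sub_le (c1 • A1 + c2 • A2) (c3 • A3)
  have f3 := norm_add_le (c1 • A1) (c2 • A2)
  linarith

theorem norm_dfl (B : LieBasis G n) (U : Link D l → G) (x : Fin D → ZMod l) (i j : Fin D)
    (p : Link D l × Fin n) : ‖dfl B U x i j p‖ ≤ sgm x i j p.1 := by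
  unfold dfl sgm
  have h1 : ‖B.X p.2‖ ≤ 1 := (norm_X B p.2).le
  have h2 : ‖mt (U (x, i)) * B.X p.2 * (mt (U (x, i)))ᴴ‖ ≤ 1 := by rw [norm_conj]; exact h1
  have h3 : ‖mt (U (x, j)) * B.X p.2 * (mt (U (x, j)))ᴴ‖ ≤ 1 := by rw [norm_conj]; exact h1
  have := comb4 (dl_nonneg (x, i) p.1) (dl_nonneg (x + unitv i, j) p.1)
    (dl_nonneg (x + unitv j, i) p.1) (dl_nonneg (x, j) p.1) h1 h2 h3 h1
  rw [mul_one] at this
  exact this

theorem alg {a b c d X : Mt N} (ua : aᴴ * a = 1) (ud' : dᴴ * d = 1) (hX : Xᴴ = -X)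
    (c1 c2 c3 c4 : ℝ) :
    c1 • (X * a) * b * cᴴ * dᴴ + a * (c2 • (X * b)) * cᴴ * dᴴ + a * b * (c3 • (X * c))ᴴ * dᴴ +
      a * b * cᴴ * (c4 • (X * d))ᴴ =
    c1 • (X * (a * b * cᴴ * dᴴ)) + c2 • (a * X * aᴴ * (a * b * cᴴ * dᴴ)) -
      c3 • (a * b * cᴴ * dᴴ * (d * X * dᴴ)) - c4 • (a * b * cᴴ * dᴴ * X) := by
  have e2 : a * X * aᴴ * (a * b * cᴴ * dᴴ) = a * X * b * cᴴ * dᴴ := by
    calc a * X * aᴴ * (a * b * cᴴ * dᴴ) = a * X * (aᴴ * a) * b * cᴴ * dᴴ := by noncomm_ring
      _ = _ := by rw [ua, mul_one]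
  have e3 : a * b * cᴴ * dᴴ * (d * X * dᴴ) = a * b * cᴴ * X * dᴴ := by
    calc a * b * cᴴ * dᴴ * (d * X * dᴴ) = a * b * cᴴ * (dᴴ * d) * X * dᴴ := by noncomm_ring
      _ = _ := by rw [ud', mul_one]
  rw [e2, e3, conjTranspose_smul, conjTranspose_smul, conjTranspose_mul, conjTranspose_mul, hX]
  simp only [star_trivial, smul_mul_assoc, mul_smul_comm, mul_neg, neg_mul, smul_neg, mul_assoc]
  abel

theorem dpl_eq (B : LieBasis G n) (U : Link D l → G) (x : Fin D → ZMod l) (i j : Fin D)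
    (p : Link D l × Fin n) :
    dpl B U x i j p = dl (x, i) p.1 • (B.X p.2 * mt (plaq U x i j))
      + dl (x + unitv i, j) p.1 • (mt (U (x, i)) * B.X p.2 * (mt (U (x, i)))ᴴ *
        mt (plaq U x i j))
      - dl (x + unitv j, i) p.1 • (mt (plaq U x i j) *
        (mt (U (x, j)) * B.X p.2 * (mt (U (x, j)))ᴴ))
      - dl (x, j) p.1 • (mt (plaq U x i j) * B.X p.2) := by
  have h1 := der_link B U p (x, i)
  have h2 := der_link B U p (x + unitv i, j)
  have h3 := Pool.Agent.H906R3.YM.hasDeriv_ct (der_link B U p (x + unitv j, i))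
  have h4 := Pool.Agent.H906R3.YM.hasDeriv_ct (der_link B U p (x, j))
  have h5 := ((h1.fun_mul h2).fun_mul h3).fun_mul h4
  have hz : Function.update U p.1 (B.ex p.2 0 * U p.1) = U := by
    rw [Pool.Agent.Q129.LU.ex_zero, one_mul, Function.update_eq_self]
  rw [hz] at h5
  have halg := alg (a := mt (U (x, i))) (b := mt (U (x + unitv i, j)))
    (c := mt (U (x + unitv j, i))) (d := mt (U (x, j))) (Pool.Agent.Q77.LU.mt_unit' _)
    (Pool.Agent.Q77.LU.mt_unit' _) (Pool.Agent.Q77.LU.skewX B p.2) (dl (x, i) p.1)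
    (dl (x + unitv i, j) p.1) (dl (x + unitv j, i) p.1) (dl (x, j) p.1)
  have hP : mt (plaq U x i j) = mt (U (x, i)) * mt (U (x + unitv i, j)) *
      (mt (U (x + unitv j, i)))ᴴ * (mt (U (x, j)))ᴴ := rfl
  rw [hP, ← halg]
  unfold dpl
  refine HasDerivAt.deriv ?_
  have e0 : (fun t => mt (plaq (Function.update U p.1 (B.ex p.2 t * U p.1)) x i j))
      = fun t => mt (Function.update U p.1 (B.ex p.2 t * U p.1) (x, i))
        * mt (Function.update U p.1 (B.ex p.2 t * U p.1) (x + unitv i, j))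
        * (mt (Function.update U p.1 (B.ex p.2 t * U p.1) (x + unitv j, i)))ᴴ
        * (mt (Function.update U p.1 (B.ex p.2 t * U p.1) (x, j)))ᴴ := by
    funext t
    rfl
  rw [e0]
  refine h5.congr_deriv ?_
  rw [add_mul, add_mul, add_mul]

theorem norm_dpl (B : LieBasis G n) (U : Link D l → G) (x : Fin D → ZMod l) (i j : Fin D)
    (p : Link D l × Fin n) : ‖dpl B U x i j p‖ ≤ sgm x i j p.1 := by
  rw [dpl_eq]
  unfold sgm
  have h1 : ‖B.X p.2‖ ≤ 1 := (norm_X B p.2).le
  have k1 : ‖B.X p.2 * mt (plaq U x i j)‖ ≤ 1 := by rw [norm_right]; exact h1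
  have k2 : ‖mt (U (x, i)) * B.X p.2 * (mt (U (x, i)))ᴴ * mt (plaq U x i j)‖ ≤ 1 := by
    rw [norm_right, norm_conj]; exact h1
  have k3 : ‖mt (plaq U x i j) * (mt (U (x, j)) * B.X p.2 * (mt (U (x, j)))ᴴ)‖ ≤ 1 := by
    rw [norm_left, norm_conj]; exact h1
  have k4 : ‖mt (plaq U x i j) * B.X p.2‖ ≤ 1 := by rw [norm_left]; exact h1
  have := comb4 (dl_nonneg (x, i) p.1) (dl_nonneg (x + unitv i, j) p.1)
    (dl_nonneg (x + unitv j, i) p.1) (dl_nonneg (x, j) p.1) k1 k2 k3 k4
  rw [mul_one] at this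
  exact this

theorem norm_sub_dfl (B : LieBasis G n) (U : Link D l → G) (x : Fin D → ZMod l) (i j : Fin D)
    (p : Link D l × Fin n) {δ : ℝ} (hδ : ‖mt (plaq U x i j) - mt (1 : G)‖ ≤ δ) :
    ‖dpl B U x i j p - dfl B U x i j p‖ ≤ sgm x i j p.1 * δ := by
  rw [dpl_eq]
  unfold dfl sgm
  set P := mt (plaq U x i j) with hP
  rw [Pool.Agent.Q77.LU.mt_one] at hδ
  have h1 : ‖B.X p.2‖ = 1 := norm_X B p.2
  have r1 : ∀ M : Mt N, ‖M‖ = 1 → ‖M * P - M‖ ≤ δ := by
    intro M hM
    have : M * P - M = M * (P - 1) := by rw [mul_sub, mul_one]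
    rw [this]
    refine (Matrix.frobenius_norm_mul _ _).trans ?_
    rw [hM, one_mul]
    exact hδ
  have r2 : ∀ M : Mt N, ‖M‖ = 1 → ‖P * M - M‖ ≤ δ := by
    intro M hM
    have : P * M - M = (P - 1) * M := by rw [sub_mul, one_mul]
    rw [this]
    refine (Matrix.frobenius_norm_mul _ _).trans ?_
    rw [hM, mul_one]
    exact hδ
  have k1 := r1 (B.X p.2) h1
  have k2 := r1 (mt (U (x, i)) * B.X p.2 * (mt (U (x, i)))ᴴ) (by rw [norm_conj]; exact h1)
  have k3 := r2 (mt (U (x, j)) * B.X p.2 * (mt (U (x, j)))ᴴ) (by rw [norm_conj]; exact h1)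
  have k4 := r2 (B.X p.2) h1
  have := comb4 (dl_nonneg (x, i) p.1) (dl_nonneg (x + unitv i, j) p.1)
    (dl_nonneg (x + unitv j, i) p.1) (dl_nonneg (x, j) p.1) k1 k2 k3 k4
  refine le_trans (le_of_eq ?_) this
  congr 1
  simp only [smul_sub]
  abel

theorem dfl_cov [NeZero l] (B : LieBasis G n) (U : Link D l → G)
    (x : Fin D → ZMod l) (i j : Fin D) (y : Fin D → ZMod l) (k : Fin D) (a : Fin n) :
    dfl B U x i j ((y, k), a) = ∑ c, ((if k = j then (cov B U i - 1) (x, c) (y, a) else 0)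
      - (if k = i then (cov B U j - 1) (x, c) (y, a) else 0)) • B.X c := by
  unfold dfl
  have hb : B.X a = ∑ c, (if c = a then (1 : ℝ) else 0) • B.X c := by
    simp
  have e1 : dl (x, i) (y, k) • B.X a = ∑ c, (if k = i ∧ y = x ∧ c = a then (1 : ℝ) else 0)
      • B.X c := by
    unfold dl
    by_cases h : k = i ∧ y = x
    · obtain ⟨h1, h2⟩ := h
      subst h1 h2
      simp
    · have h1 : ¬ ((x, i) = (y, k)) := by
        intro h2
        obtain ⟨h3, h4⟩ := Prod.mk.inj h2
        exact h ⟨h4.symm, h3.symm⟩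
      rw [if_neg h1, zero_smul]
      refine (Finset.sum_eq_zero fun c _ => ?_).symm
      rw [if_neg (fun h2 => h ⟨h2.1, h2.2.1⟩), zero_smul]
  have e4 : dl (x, j) (y, k) • B.X a = ∑ c, (if k = j ∧ y = x ∧ c = a then (1 : ℝ) else 0)
      • B.X c := by
    unfold dl
    by_cases h : k = j ∧ y = x
    · obtain ⟨h1, h2⟩ := h
      subst h1 h2
      simp
    · have h1 : ¬ ((x, j) = (y, k)) := by
        intro h2
        obtain ⟨h3, h4⟩ := Prod.mk.inj h2
        exact h ⟨h4.symm, h3.symm⟩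
      rw [if_neg h1, zero_smul]
      refine (Finset.sum_eq_zero fun c _ => ?_).symm
      rw [if_neg (fun h2 => h ⟨h2.1, h2.2.1⟩), zero_smul]
  have e23 : ∀ i j : Fin D, dl (x + unitv i, j) (y, k) •
      (mt (U (x, i)) * B.X a * (mt (U (x, i)))ᴴ)
      = ∑ c, (if k = j then cov B U i (x, c) (y, a) else 0) • B.X c := by
    intro i j
    rw [Am_conj]
    unfold dl
    by_cases h : k = j ∧ y = x + unitv i
    · obtain ⟨h1, h2⟩ := h
      subst h1 h2
      simp only [if_true, one_smul, cov_apply]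
    · have h1 : ¬ ((x + unitv i, j) = (y, k)) := by
        intro h2
        obtain ⟨h3, h4⟩ := Prod.mk.inj h2
        exact h ⟨h4.symm, h3.symm⟩
      rw [if_neg h1, zero_smul]
      refine (Finset.sum_eq_zero fun c _ => ?_).symm
      rw [cov_apply]
      by_cases hk : k = j
      · have h2 : ¬ (y = x + unitv i) := fun h3 => h ⟨hk, h3⟩
        simp only [h2, if_false, ite_self, zero_smul]
      · rw [if_neg hk, zero_smul]
  change dl (x, i) (y, k) • B.X a + dl (x + unitv i, j) (y, k) •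
      (mt (U (x, i)) * B.X a * (mt (U (x, i)))ᴴ) - dl (x + unitv j, i) (y, k) •
      (mt (U (x, j)) * B.X a * (mt (U (x, j)))ᴴ) - dl (x, j) (y, k) • B.X a = _
  rw [e1, e4, e23 i j, e23 j i, ← Finset.sum_add_distrib, ← Finset.sum_sub_distrib,
    ← Finset.sum_sub_distrib]
  refine Finset.sum_congr rfl fun c _ => ?_
  rw [← add_smul, ← sub_smul, ← sub_smul]
  congr 1
  have hδ : (1 : Matrix ((Fin D → ZMod l) × Fin n) ((Fin D → ZMod l) × Fin n) ℝ) (x, c) (y, a)
      = if y = x ∧ c = a then 1 else 0 := by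
    rw [Matrix.one_apply]
    by_cases h : y = x ∧ c = a
    · rw [if_pos h, if_pos (by rw [h.1, h.2])]
    · rw [if_neg h, if_neg]
      intro h1
      obtain ⟨h2, h3⟩ := Prod.mk.inj h1
      exact h ⟨h2.symm, h3⟩
  simp only [Matrix.sub_apply, hδ, ite_and]
  by_cases h1 : k = j
  · by_cases h2 : k = i
    · simp only [if_pos h1, if_pos h2]
      ring
    · simp only [if_pos h1, if_neg h2]
      ring
  · by_cases h2 : k = i
    · simp only [if_neg h1, if_pos h2]
      ring
    · simp only [if_neg h1, if_neg h2]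
      ring

/-! ### the Gram matrix -/

theorem gram_dfl [NeZero l] (B : LieBasis G n) (U : Link D l → G) (y y' : Fin D → ZMod l)
    (k k' : Fin D) (a b : Fin n) :
    (∑ x : Fin D → ZMod l, ∑ i : Fin D, ∑ j : Fin D, if i < j then
      (trace ((dfl B U x i j ((y, k), a))ᴴ * dfl B U x i j ((y', k'), b))).re else 0) =
    (if k = k' then lapU B U (y, a) (y', b) else 0) -
      ((cov B U k' - 1)ᵀ * (cov B U k - 1) : Matrix ((Fin D → ZMod l) × Fin n)
        ((Fin D → ZMod l) × Fin n) ℝ) (y, a) (y', b) := by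
  obtain ⟨E, hE⟩ : ∃ E : Fin D → (Fin D → ZMod l) → Fin n → (Fin D → ZMod l) → Fin n → ℝ,
      E = fun i x c y a => (cov B U i - 1) (x, c) (y, a) := ⟨_, rfl⟩
  -- the coefficients
  obtain ⟨K, hK⟩ : ∃ K : Fin D → Fin D → (Fin D → ZMod l) → Fin n → (Fin D → ZMod l) → Fin D →
      Fin n → ℝ, K = fun i j x c y k a => io k j * E i x c y a - io k i * E j x c y a := ⟨_, rfl⟩
  have hd : ∀ x i j y k a, dfl B U x i j ((y, k), a) = ∑ c, K i j x c y k a • B.X c := by
    intro x i j y k a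
    rw [hK, hE, dfl_cov B U x i j y k a]
    refine Finset.sum_congr rfl fun c _ => ?_
    unfold io
    simp only [ite_mul, one_mul, zero_mul]
  have h1 : (∑ x : Fin D → ZMod l, ∑ i : Fin D, ∑ j : Fin D, if i < j then
      (trace ((dfl B U x i j ((y, k), a))ᴴ * dfl B U x i j ((y', k'), b))).re else 0)
      = ∑ x : Fin D → ZMod l, ∑ i : Fin D, ∑ j : Fin D,
        if i < j then ∑ c, K i j x c y k a * K i j x c y' k' b else 0 := by
    refine Finset.sum_congr rfl fun x _ => Finset.sum_congr rfl fun i _ =>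
      Finset.sum_congr rfl fun j _ => ?_
    rw [hd, hd, ip_sum]
  have hanti : ∀ i j x c y k a, K j i x c y k a = -K i j x c y k a := by
    intro i j x c y k a
    rw [hK]
    ring
  have h2 : ∀ x : Fin D → ZMod l, (∑ i : Fin D, ∑ j : Fin D,
      if i < j then ∑ c, K i j x c y k a * K i j x c y' k' b else 0)
      = 1 / 2 * ∑ i : Fin D, ∑ j : Fin D, ∑ c, K i j x c y k a * K i j x c y' k' b := by
    intro x
    have e1 : ∀ i j, ∑ c, K i j x c y k a * K i j x c y' k' b
        = (if i < j then ∑ c, K i j x c y k a * K i j x c y' k' b else 0)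
          + (if j < i then ∑ c, K j i x c y k a * K j i x c y' k' b else 0) := by
      intro i j
      rcases lt_trichotomy i j with hij | hij | hij
      · rw [if_pos hij, if_neg (not_lt.2 hij.le), add_zero]
      · subst hij
        simp only [lt_irrefl, if_false, add_zero]
        refine Finset.sum_eq_zero fun c _ => ?_
        have := hanti i i x c y k a
        have h0 : K i i x c y k a = 0 := by linarith
        rw [h0, zero_mul]
      · rw [if_neg (not_lt.2 hij.le), if_pos hij, zero_add]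
        refine Finset.sum_congr rfl fun c _ => ?_
        rw [hanti j i, hanti j i]
        ring
    have e2 : ∑ i : Fin D, ∑ j : Fin D, ∑ c, K i j x c y k a * K i j x c y' k' b
        = 2 * ∑ i : Fin D, ∑ j : Fin D,
          if i < j then ∑ c, K i j x c y k a * K i j x c y' k' b else 0 := by
      rw [Finset.sum_congr rfl fun i _ => Finset.sum_congr rfl fun j _ => e1 i j]
      simp_rw [Finset.sum_add_distrib]
      rw [two_mul]
      congr 1
      exact Finset.sum_comm
    rw [e2]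
    ring
  have h3 : ∀ x, ∑ i : Fin D, ∑ j : Fin D, ∑ c, K i j x c y k a * K i j x c y' k' b
      = 2 * (io k k' * (∑ i, ∑ c, E i x c y a * E i x c y' b)
        - ∑ c, E k' x c y a * E k x c y' b) := by
    intro x
    have e1 : ∑ i : Fin D, ∑ j : Fin D, ∑ c, K i j x c y k a * K i j x c y' k' b
        = ∑ c, ∑ i : Fin D, ∑ j : Fin D, K i j x c y k a * K i j x c y' k' b := by
      rw [Finset.sum_congr rfl fun i _ => Finset.sum_comm]
      exact Finset.sum_comm
    rw [e1, hK]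
    rw [Finset.sum_congr rfl fun c _ => gram_alg k k' (fun i => E i x c y a)
      (fun i => E i x c y' b), ← Finset.mul_sum, Finset.sum_sub_distrib, ← Finset.mul_sum,
      Finset.sum_comm]
  have hprod : ∀ i j, ∑ x, ∑ c, E i x c y a * E j x c y' b
      = ((cov B U i - 1)ᵀ * (cov B U j - 1) : Matrix ((Fin D → ZMod l) × Fin n)
        ((Fin D → ZMod l) × Fin n) ℝ) (y, a) (y', b) := by
    intro i j
    rw [mul_apply, Fintype.sum_prod_type, hE]
    rfl
  rw [h1, Finset.sum_congr rfl fun x _ => h2 x, ← Finset.mul_sum,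
    Finset.sum_congr rfl fun x _ => h3 x, ← Finset.mul_sum, Finset.sum_sub_distrib,
    ← Finset.mul_sum, hprod, ← mul_assoc, Finset.sum_comm,
    Finset.sum_congr rfl fun i _ => hprod i i]
  norm_num
  unfold io lapU
  rw [Matrix.sum_apply]
  split_ifs <;> simp

/-! ### sums over the plaquettes -/

theorem sum_dl [NeZero l] (v : Fin D → ZMod l) (e : Link D l) :
    ∑ x : Fin D → ZMod l, ∑ j : Fin D, dl (x + v, j) e = 1 := by
  obtain ⟨y, k⟩ := e
  have h1 : ∀ (x : Fin D → ZMod l) (j : Fin D), dl (x + v, j) (y, k) =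
      if x = y - v then (if j = k then (1 : ℝ) else 0) else 0 := by
    intro x j
    unfold dl
    by_cases h : x = y - v
    · subst h
      rw [if_pos rfl]
      by_cases hj : j = k
      · subst hj
        rw [if_pos rfl, if_pos (by rw [sub_add_cancel])]
      · rw [if_neg hj, if_neg (fun h' => hj (Prod.mk.inj h').2)]
    · rw [if_neg h, if_neg (fun h' => h (eq_sub_of_add_eq (Prod.mk.inj h').1))]
  simp only [h1]
  have h2 : ∀ x : Fin D → ZMod l, (∑ j : Fin D, if x = y - v then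
      (if j = k then (1 : ℝ) else 0) else 0) = if x = y - v then 1 else 0 := by
    intro x
    split_ifs
    · simp
    · simp
  simp only [h2]
  simp

theorem sum_sgm [NeZero l] (e : Link D l) :
    ∑ x : Fin D → ZMod l, ∑ i : Fin D, ∑ j : Fin D, sgm x i j e = 4 * D := by
  unfold sgm
  simp only [Finset.sum_add_distrib]
  have a1 : ∑ x : Fin D → ZMod l, ∑ i : Fin D, ∑ _j : Fin D, dl (x, i) e = D := by
    have h := sum_dl (l := l) (0 : Fin D → ZMod l) e
    simp only [add_zero] at h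
    simp only [Finset.sum_const, Finset.card_univ, Fintype.card_fin, nsmul_eq_mul,
      ← Finset.mul_sum]
    rw [h, mul_one]
  have a4 : ∑ x : Fin D → ZMod l, ∑ _i : Fin D, ∑ j : Fin D, dl (x, j) e = D := by
    have h := sum_dl (l := l) (0 : Fin D → ZMod l) e
    simp only [add_zero] at h
    simp only [Finset.sum_const, Finset.card_univ, Fintype.card_fin, nsmul_eq_mul,
      ← Finset.mul_sum]
    rw [h, mul_one]
  have a2 : ∑ x : Fin D → ZMod l, ∑ i : Fin D, ∑ j : Fin D, dl (x + unitv i, j) e = D := by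
    rw [Finset.sum_comm]
    simp only [sum_dl]
    simp
  have a3 : ∑ x : Fin D → ZMod l, ∑ i : Fin D, ∑ j : Fin D, dl (x + unitv j, i) e = D := by
    have : ∀ x : Fin D → ZMod l, ∑ i : Fin D, ∑ j : Fin D, dl (x + unitv j, i) e =
        ∑ j : Fin D, ∑ i : Fin D, dl (x + unitv j, i) e := fun x => Finset.sum_comm
    simp only [this]
    rw [Finset.sum_comm]
    simp only [sum_dl]
    simp
  rw [a1, a2, a3, a4]
  ring

theorem hess_gram [NeZero l] (B : LieBasis G n) (U : Link D l → G) (p q : Link D l × Fin n) :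
    |hess B U p q - ∑ x : Fin D → ZMod l, ∑ i : Fin D, ∑ j : Fin D, (if i < j then
      (trace ((dfl B U x i j p)ᴴ * dfl B U x i j q)).re else 0)| ≤
      32 * D * Real.sqrt (2 * magnetic U) := by
  set ε := Real.sqrt (2 * magnetic U) with hε
  have hε0 : 0 ≤ ε := Real.sqrt_nonneg _
  unfold hess
  simp only [← Finset.sum_sub_distrib]
  have hterm : ∀ (x : Fin D → ZMod l) (i j : Fin D),
      |(if i < j then (trace ((dpl B U x i j p)ᴴ * dpl B U x i j q)).re else 0) -
        (if i < j then (trace ((dfl B U x i j p)ᴴ * dfl B U x i j q)).re else 0)| ≤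
      8 * ε * sgm x i j p.1 := by
    intro x i j
    split_ifs with hij
    · have h1 := plaq_le U x hij
      have h2 := ip_diff (norm_dfl B U x i j p) (norm_dpl B U x i j q)
        (norm_sub_dfl B U x i j p h1) (norm_sub_dfl B U x i j q h1) (sgm_nonneg x i j p.1)
        (sgm_nonneg x i j q.1) hε0
      refine h2.trans ?_
      have h3 := sgm_le x i j q.1
      have h4 : 0 ≤ 2 * sgm x i j p.1 * ε := by
        have := sgm_nonneg x i j p.1
        positivity
      calc 2 * sgm x i j p.1 * sgm x i j q.1 * ε = 2 * sgm x i j p.1 * ε * sgm x i j q.1 := by ring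
        _ ≤ 2 * sgm x i j p.1 * ε * 4 := mul_le_mul_of_nonneg_left h3 h4
        _ = 8 * ε * sgm x i j p.1 := by ring
    · rw [sub_self, abs_zero]
      have := sgm_nonneg x i j p.1
      positivity
  calc _ ≤ ∑ x : Fin D → ZMod l, ∑ i : Fin D, ∑ j : Fin D, 8 * ε * sgm x i j p.1 := by
        refine (Finset.abs_sum_le_sum_abs _ _).trans (Finset.sum_le_sum fun x _ => ?_)
        refine (Finset.abs_sum_le_sum_abs _ _).trans (Finset.sum_le_sum fun i _ => ?_)
        refine (Finset.abs_sum_le_sum_abs _ _).trans (Finset.sum_le_sum fun j _ => ?_)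
        exact hterm x i j
    _ = 8 * ε * ∑ x : Fin D → ZMod l, ∑ i : Fin D, ∑ j : Fin D, sgm x i j p.1 := by
        simp only [Finset.mul_sum]
    _ = 32 * D * ε := by rw [sum_sgm]; ring

/-! ### the commutator -/

theorem am_le (B : LieBasis G n) (g h : G) (a b : Fin n) :
    |Am B g a b - Am B h a b| ≤ 2 * ‖mt g - mt h‖ := by
  have e1 : Am B g a b - Am B h a b =
      (trace ((B.X a)ᴴ * (mt g * B.X b * (mt g)ᴴ - mt h * B.X b * (mt h)ᴴ))).re := by
    unfold Am
    rw [mul_sub, trace_sub, Complex.sub_re]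
  rw [e1]
  refine (re_tr_le _ _).trans ?_
  rw [norm_X, one_mul]
  have e2 : mt g * B.X b * (mt g)ᴴ - mt h * B.X b * (mt h)ᴴ =
      (mt g - mt h) * B.X b * (mt g)ᴴ + mt h * (B.X b * (mt g - mt h)ᴴ) := by
    rw [conjTranspose_sub]
    noncomm_ring
  rw [e2]
  refine (norm_add_le _ _).trans ?_
  rw [norm_ct, norm_left]
  have h1 := Matrix.frobenius_norm_mul (mt g - mt h) (B.X b)
  have h2 := Matrix.frobenius_norm_mul (B.X b) (mt g - mt h)ᴴ
  rw [Matrix.frobenius_norm_conjTranspose, norm_X, one_mul] at h2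
  rw [norm_X, mul_one] at h1
  linarith

theorem comm_le [NeZero l] (B : LieBasis G n) (U : Link D l → G) (k k' : Fin D)
    (y y' : Fin D → ZMod l) (a b : Fin n) :
    |(cov B U k * (cov B U k')ᵀ) (y, a) (y', b) - ((cov B U k')ᵀ * cov B U k) (y, a) (y', b)| ≤
      2 * Real.sqrt (2 * magnetic U) := by
  have e1 : (cov B U k * (cov B U k')ᵀ) (y, a) (y', b) =
      if y + unitv k = y' + unitv k' then Am B (U (y, k) * (U (y', k'))⁻¹) a b else 0 := by
    rw [mul_apply, Fintype.sum_prod_type, Finset.sum_eq_single (y + unitv k)]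
    · simp only [transpose_apply, cov_apply, if_true]
      split_ifs with h
      · rw [Am_mul]
        refine Finset.sum_congr rfl fun c _ => ?_
        rw [Am_inv]
      · simp
    · intro z _ hz
      simp only [transpose_apply, cov_apply, hz, if_false, zero_mul, Finset.sum_const_zero]
    · simp
  have e2 : ((cov B U k')ᵀ * cov B U k) (y, a) (y', b) =
      if y + unitv k = y' + unitv k' then
        Am B ((U (y - unitv k', k'))⁻¹ * U (y - unitv k', k)) a b else 0 := by
    rw [mul_apply, Fintype.sum_prod_type, Finset.sum_eq_single (y - unitv k')]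
    · simp only [transpose_apply, cov_apply]
      by_cases h : y + unitv k = y' + unitv k'
      · rw [if_pos h, Am_mul]
        refine Finset.sum_congr rfl fun c _ => ?_
        rw [if_pos (sub_add_cancel y _).symm, if_pos, Am_inv]
        calc y' = y' + unitv k' - unitv k' := by abel
          _ = y - unitv k' + unitv k := by rw [← h]; abel
      · rw [if_neg h]
        refine Finset.sum_eq_zero fun c _ => ?_
        have h' : ¬ (y' = y - unitv k' + unitv k) := by
          intro h1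
          apply h
          rw [h1]
          abel
        rw [if_neg h', mul_zero]
    · intro z _ hz
      refine Finset.sum_eq_zero fun c _ => ?_
      simp only [transpose_apply, cov_apply]
      rw [if_neg, zero_mul]
      intro h
      apply hz
      rw [h]
      abel
    · simp
  rw [e1, e2]
  by_cases h : y + unitv k = y' + unitv k'
  · rw [if_pos h, if_pos h]
    refine (am_le B _ _ a b).trans ?_
    apply mul_le_mul_of_nonneg_left _ (by norm_num)
    have h1 := flat_le U (y - unitv k') k k'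
    have hy' : y' = y - unitv k' + unitv k := by
      calc y' = y' + unitv k' - unitv k' := by abel
        _ = y - unitv k' + unitv k := by rw [← h]; abel
    rw [sub_add_cancel, ← hy'] at h1
    -- multiply by the links
    have h2 := nd_left (U (y - unitv k', k')) (U (y, k) * (U (y', k'))⁻¹)
      ((U (y - unitv k', k'))⁻¹ * U (y - unitv k', k))
    have h3 := nd_right (U (y', k')) (U (y - unitv k', k') * (U (y, k) * (U (y', k'))⁻¹))
      (U (y - unitv k', k') * ((U (y - unitv k', k'))⁻¹ * U (y - unitv k', k)))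
    have g1 : U (y - unitv k', k') * (U (y, k) * (U (y', k'))⁻¹) * U (y', k') =
        U (y - unitv k', k') * U (y, k) := by group
    have g2 : U (y - unitv k', k') * ((U (y - unitv k', k'))⁻¹ * U (y - unitv k', k)) *
        U (y', k') = U (y - unitv k', k) * U (y', k') := by group
    rw [g1, g2] at h3
    rw [← h2, ← h3, nd_symm]
    exact h1
  · rw [if_neg h, if_neg h, sub_self, abs_zero]
    positivity

/-- WEI -/
theorem t_WEI : S_WEI := by
  intro N n D G hG B
  refine ⟨(32 * D + 2) * Real.sqrt 2, by positivity, ?_⟩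
  intro l _ U p q
  obtain ⟨⟨y, k⟩, a⟩ := p
  obtain ⟨⟨y', k'⟩, b⟩ := q
  have h1 := hess_gram B U ((y, k), a) ((y', k'), b)
  rw [gram_dfl] at h1
  have h2 := comm_le B U k k' y y' a b
  have h3 : (Nab B U * (Nab B U)ᵀ) ((y, k), a) ((y', k'), b) =
      ((cov B U k - 1) * (cov B U k' - 1)ᵀ : Matrix ((Fin D → ZMod l) × Fin n)
        ((Fin D → ZMod l) × Fin n) ℝ) (y, a) (y', b) := by
    rw [mul_apply, mul_apply]
    rfl
  have h4 : lapD B U ((y, k), a) ((y', k'), b) = if k = k' then lapU B U (y, a) (y', b) else 0 :=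
    rfl
  have h5 : ((cov B U k - 1) * (cov B U k' - 1)ᵀ : Matrix ((Fin D → ZMod l) × Fin n)
        ((Fin D → ZMod l) × Fin n) ℝ) - (cov B U k' - 1)ᵀ * (cov B U k - 1) =
      cov B U k * (cov B U k')ᵀ - (cov B U k')ᵀ * cov B U k := by
    rw [transpose_sub, transpose_one]
    noncomm_ring
  have h6 := congrFun (congrFun h5 (y, a)) (y', b)
  rw [Matrix.sub_apply, Matrix.sub_apply] at h6
  rw [← h6] at h2
  rw [h3, h4]
  have h7 : Real.sqrt (2 * magnetic U) = Real.sqrt 2 * Real.sqrt (magnetic U) :=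
    Real.sqrt_mul (by norm_num) _
  have h8 := abs_add_le (hess B U ((y, k), a) ((y', k'), b) -
    ((if k = k' then lapU B U (y, a) (y', b) else 0) -
      ((cov B U k' - 1)ᵀ * (cov B U k - 1) : Matrix ((Fin D → ZMod l) × Fin n)
        ((Fin D → ZMod l) × Fin n) ℝ) (y, a) (y', b)))
    (((cov B U k - 1) * (cov B U k' - 1)ᵀ : Matrix ((Fin D → ZMod l) × Fin n)
        ((Fin D → ZMod l) × Fin n) ℝ) (y, a) (y', b) -
      ((cov B U k' - 1)ᵀ * (cov B U k - 1) : Matrix ((Fin D → ZMod l) × Fin n)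
        ((Fin D → ZMod l) × Fin n) ℝ) (y, a) (y', b))
  have h9 : ∀ H L2 A T : ℝ, H + A - L2 = (H - (L2 - T)) + (A - T) := by intros; ring
  rw [h9 _ _ _ (((cov B U k' - 1)ᵀ * (cov B U k - 1) : Matrix ((Fin D → ZMod l) × Fin n)
        ((Fin D → ZMod l) × Fin n) ℝ) (y, a) (y', b))]
  refine h8.trans ?_
  have h10 : (32 * D + 2) * Real.sqrt 2 * Real.sqrt (magnetic U) =
      32 * D * Real.sqrt (2 * magnetic U) + 2 * Real.sqrt (2 * magnetic U) := by
    rw [h7]
    ring
  rw [h10]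
  exact add_le_add h1 h2

end

end Pool.Agent.Q58.LUU
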